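import Pool.Agent.W2helper3.BQ.Stm

/-!
# PIECE IN of project BQ: inverse of a first-order operator
-/

set_option autoImplicit false

open MeasureTheory Set Filter Topology
open Pool.Agent.W2helper3.BQ

namespace Pool.Agent.W2helper46.BQ

theorem in_aux (α : ℝ) (hα : 1 / 4 ≤ |α|) (η g : ℝ → ℂ) (hη : ContDiff ℝ 1 η)
    (hηs : HasCompactSupport η) (hg : Continuous g) (heq : ∀ u, deriv η u - α * η u = g u) (u : ℝ) :
    ‖η u‖ ≤ ∫ v, Real.exp (-|v| / 4) * ‖g (u + v)‖ := by
  have hgs : HasCompactSupport g := by
    have h1 : g = (deriv η) + fun x => (-α : ℂ) * η x := by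
      funext x
      rw [← heq x]
      simp only [Pi.add_apply]
      ring
    rw [h1]
    exact hηs.deriv.add (hηs.mul_left (f := fun _ => (-α : ℂ)))
  have hgs' : HasCompactSupport fun v => g (u + v) := hgs.comp_homeomorph (Homeomorph.addLeft u)
  set k : ℝ → ℝ := fun v => Real.exp (-|v| / 4) * ‖g (u + v)‖ with hk
  have hkc : Continuous k := by
    refine Continuous.mul ?_ ?_
    · exact Real.continuous_exp.comp (by fun_prop)
    · exact (hg.comp (by fun_prop)).norm
  have hks : HasCompactSupport k := hgs'.norm.mul_left (f := fun v => Real.exp (-|v| / 4))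
  have hki : Integrable k := hkc.integrable_of_hasCompactSupport hks
  have hk0 : ∀ v, 0 ≤ k v := fun v => mul_nonneg (Real.exp_pos _).le (norm_nonneg _)
  obtain ⟨R, hR0, hR⟩ : ∃ R : ℝ, 0 < R ∧ ∀ v : ℝ, R ≤ |v| → η (u + v) = 0 := by
    obtain ⟨r, hr⟩ := hηs.isCompact.isBounded.subset_closedBall (0 : ℝ)
    refine ⟨|r| + |u| + 1, by positivity, fun v hv => ?_⟩
    by_contra hcon
    have h1 : u + v ∈ tsupport η := subset_tsupport _ hcon
    have h2 := hr h1
    rw [Metric.mem_closedBall, dist_zero_right, Real.norm_eq_abs] at h2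
    have h3 : |v| ≤ |u + v| + |u| := by
      have := abs_sub (u + v) u
      rw [add_sub_cancel_left] at this
      exact this
    have h4 := le_abs_self r
    linarith
  have hη1 : Differentiable ℝ η := hη.differentiable (by norm_num)
  have hder : ∀ v, HasDerivAt (fun v : ℝ => (Real.exp (-α * v) : ℂ) * η (u + v))
      ((Real.exp (-α * v) : ℂ) * g (u + v)) v := by
    intro v
    have h1 : HasDerivAt (fun v : ℝ => ((Real.exp (-α * v) : ℝ) : ℂ))
        (((Real.exp (-α * v) * (-α) : ℝ)) : ℂ) v := by
      apply HasDerivAt.ofReal_comp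
      have := ((hasDerivAt_id v).const_mul (-α)).exp
      simpa using this
    have h2 : HasDerivAt (fun v : ℝ => η (u + v)) (deriv η (u + v)) v := by
      have h3 := (hη1 (u + v)).hasDerivAt
      exact h3.comp_const_add u v
    refine (h1.mul h2).congr_deriv ?_
    rw [← heq]
    push_cast
    ring
  have hcont : Continuous fun v : ℝ => ((Real.exp (-α * v) : ℝ) : ℂ) * g (u + v) := by
    refine Continuous.mul ?_ (hg.comp (by fun_prop))
    exact Complex.continuous_ofReal.comp (Real.continuous_exp.comp (by fun_prop))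
  rcases le_or_gt 0 α with h0 | h0
  · rw [abs_of_nonneg h0] at hα
    have h1 := intervalIntegral.integral_eq_sub_of_hasDerivAt (a := 0) (b := R)
      (fun v _ => hder v) (hcont.intervalIntegrable _ _)
    rw [hR R (by rw [abs_of_pos hR0]), mul_zero, zero_sub, add_zero, mul_zero, Real.exp_zero,
      Complex.ofReal_one, one_mul] at h1
    rw [← norm_neg, ← h1]
    refine (intervalIntegral.norm_integral_le_integral_norm hR0.le).trans ?_
    have h2 : ∫ v in (0 : ℝ)..R, ‖((Real.exp (-α * v) : ℝ) : ℂ) * g (u + v)‖ ≤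
        ∫ v in (0 : ℝ)..R, k v := by
      refine intervalIntegral.integral_mono_on hR0.le (hcont.norm.intervalIntegrable _ _)
        (hkc.intervalIntegrable _ _) fun v hv => ?_
      rw [norm_mul, Complex.norm_real, Real.norm_eq_abs, abs_of_pos (Real.exp_pos _), hk]
      refine mul_le_mul_of_nonneg_right (Real.exp_le_exp.2 ?_) (norm_nonneg _)
      rw [abs_of_nonneg hv.1]
      nlinarith [hv.1]
    refine h2.trans ?_
    rw [intervalIntegral.integral_of_le hR0.le]
    exact setIntegral_le_integral hki (Eventually.of_forall hk0)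
  · rw [abs_of_neg h0] at hα
    have h1 := intervalIntegral.integral_eq_sub_of_hasDerivAt (a := -R) (b := 0)
      (fun v _ => hder v) (hcont.intervalIntegrable _ _)
    rw [hR (-R) (by rw [abs_neg, abs_of_pos hR0]), mul_zero, mul_zero, sub_zero, add_zero,
      Real.exp_zero, Complex.ofReal_one, one_mul] at h1
    rw [← h1]
    have hR' : -R ≤ 0 := by linarith
    refine (intervalIntegral.norm_integral_le_integral_norm hR').trans ?_
    have h2 : ∫ v in (-R)..0, ‖((Real.exp (-α * v) : ℝ) : ℂ) * g (u + v)‖ ≤
        ∫ v in (-R)..0, k v := by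
      refine intervalIntegral.integral_mono_on hR' (hcont.norm.intervalIntegrable _ _)
        (hkc.intervalIntegrable _ _) fun v hv => ?_
      rw [norm_mul, Complex.norm_real, Real.norm_eq_abs, abs_of_pos (Real.exp_pos _), hk]
      refine mul_le_mul_of_nonneg_right (Real.exp_le_exp.2 ?_) (norm_nonneg _)
      rw [abs_of_nonpos hv.2]
      nlinarith [hv.2]
    refine h2.trans ?_
    rw [intervalIntegral.integral_of_le hR']
    exact setIntegral_le_integral hki (Eventually.of_forall hk0)

/-- **IN** -/
theorem p_in : P_IN := by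
  intro α hα η g hη hηs hg heq u
  exact in_aux α hα η g hη hηs hg heq u

end Pool.Agent.W2helper46.BQ
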